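import Mathlib
import Pool.Agent.Q312.ConvMon

/-!
MP_492578_lc: the language `L(a^n) = (2^(-n) + 4^(-n)) / 2` is computed by a probabilistic
automaton with three states, but its syntactic convex monoid is not finitely presentable.
-/

namespace Pool.Agent.Results.MP_492578_lc.NotFinPres

open Pool.Agent.Q312.ConvMon MonoidAlgebra

/-! ### Homomorphisms from `D(G*)` -/

lemma exists_lift {G M : Type} [Monoid M] (t : G → PDist M) :
    ∃ T : PDist (FreeMonoid G) → PDist M, IsHom T ∧ ∀ g, T (PDist.pure (FreeMonoid.of g)) = t g := by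
  let val : PDist M →* MonoidAlgebra ℝ M :=
    { toFun := fun x => x.1, map_one' := rfl, map_mul' := fun _ _ => rfl }
  let F : MonoidAlgebra ℝ (FreeMonoid G) →ₐ[ℝ] MonoidAlgebra ℝ M :=
    MonoidAlgebra.lift ℝ (MonoidAlgebra ℝ M) (FreeMonoid G) (val.comp (FreeMonoid.lift t))
  have hpure : ∀ m, F (PDist.pure m).1 = (FreeMonoid.lift t m).1 := by
    intro m
    change F (MonoidAlgebra.single m 1) = _
    simp only [F, MonoidAlgebra.lift_single, one_smul]
    rfl
  have hmem : ∀ x : PDist (FreeMonoid G), (∀ m, 0 ≤ (F x.1).coeff m) ∧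
      (F x.1).coeff.sum (fun _ r => r) = 1 := by
    intro x
    refine PDist.induction (P := fun x => (∀ m, 0 ≤ (F x.1).coeff m) ∧
      (F x.1).coeff.sum (fun _ r => r) = 1) ?_ ?_ x
    · intro m
      rw [hpure]
      exact (FreeMonoid.lift t m).2
    · intro r x y hx hy
      rw [val_cc, map_add, map_smul, map_smul]
      exact cc_mem r ⟨_, hx⟩ ⟨_, hy⟩
  refine ⟨fun x => ⟨F x.1, hmem x⟩, ⟨?_, ?_, ?_⟩, ?_⟩
  · apply Subtype.ext
    change F 1 = 1
    exact map_one F
  · intro x y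
    apply Subtype.ext
    change F (x.1 * y.1) = F x.1 * F y.1
    exact map_mul F _ _
  · intro r x y
    apply Subtype.ext
    change F ((r : ℝ) • x.1 + (1 - (r : ℝ)) • y.1) = (r : ℝ) • F x.1 + (1 - (r : ℝ)) • F y.1
    rw [map_add, map_smul, map_smul]
  · intro g
    apply Subtype.ext
    change F (PDist.pure (FreeMonoid.of g)).1 = _
    rw [hpure]
    simp

lemma hom_ext {G M : Type} [ConvexMonoid M] {φ ψ : PDist (FreeMonoid G) → M} (hφ : IsHom φ)
    (hψ : IsHom ψ) (h : ∀ g, φ (PDist.pure (FreeMonoid.of g)) = ψ (PDist.pure (FreeMonoid.of g)))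
    (x : PDist (FreeMonoid G)) : φ x = ψ x := by
  refine PDist.induction (P := fun x => φ x = ψ x) ?_ ?_ x
  · intro m
    induction m using FreeMonoid.inductionOn' with
    | one => rw [pure_one, hφ.map_one, hψ.map_one]
    | of_mul g m ih => rw [pure_mul, hφ.map_mul, hψ.map_mul, h, ih]
  · intro r x y hx hy
    rw [hφ.map_cc, hψ.map_cc, hx, hy]

lemma IsHom.map_pow {M N : Type} [ConvexMonoid M] [ConvexMonoid N] {φ : M → N} (h : IsHom φ)
    (x : M) (n : ℕ) : φ (x ^ n) = φ x ^ n := by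
  induction n with
  | zero => rw [pow_zero, pow_zero, h.map_one]
  | succ n ih => rw [pow_succ, pow_succ, h.map_mul, ih]

lemma Cong.pow {M : Type} [ConvexMonoid M] (C : Cong M) {x y : M} (h : C.r x y) (n : ℕ) :
    C.r (x ^ n) (y ^ n) := by
  induction n with
  | zero => rw [pow_zero, pow_zero]; exact C.equiv.refl _
  | succ n ih => rw [pow_succ, pow_succ]; exact C.mul ih h

/-! ### One letter -/

/-- words over one letter -/
abbrev U : Type := FreeMonoid Unit

/-- the letter -/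
def a : U := FreeMonoid.of ()

/-- `ev c μ` is the sum of `μ(w) c^|w|` -/
noncomputable def ev (c : ℝ) : MonoidAlgebra ℝ U →ₐ[ℝ] ℝ :=
  MonoidAlgebra.lift ℝ ℝ U (FreeMonoid.lift fun _ => c)

lemma lift_eq (c : ℝ) (w : U) : FreeMonoid.lift (fun _ : Unit => c) w = c ^ w.length := by
  induction w using FreeMonoid.inductionOn' with
  | one => simp
  | of_mul g m ih => rw [map_mul, ih, FreeMonoid.length_mul]; simp [pow_add]

lemma ev_eq (c : ℝ) (x : MonoidAlgebra ℝ U) :
    ev c x = x.coeff.sum fun w r => r * c ^ w.length := by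
  unfold ev
  rw [MonoidAlgebra.lift_apply]
  simp only [lift_eq, smul_eq_mul]

lemma ev_pure (c : ℝ) (w : U) : ev c (PDist.pure w).1 = c ^ w.length := by
  unfold ev PDist.pure
  rw [MonoidAlgebra.lift_single, lift_eq, one_smul]

/-- the language -/
noncomputable def L (w : U) : ℝ := ((1 / 2) ^ w.length + (1 / 4) ^ w.length) / 2

lemma hat_L (μ : PDist U) : hat L μ = (ev (1 / 2) μ.1 + ev (1 / 4) μ.1) / 2 := by
  unfold hat L
  rw [ev_eq, ev_eq, ← Finsupp.sum_add, Finsupp.sum, Finsupp.sum, Finset.sum_div]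
  apply Finset.sum_congr rfl
  intro w _
  ring

lemma syn_iff (μ ν : PDist U) : (synCong L).r μ ν ↔
    ev (1 / 2) μ.1 = ev (1 / 2) ν.1 ∧ ev (1 / 4) μ.1 = ev (1 / 4) ν.1 := by
  constructor
  · intro h
    have h1 := h 1 1
    have h2 := h a 1
    rw [hat_L, hat_L] at h1 h2
    simp only [val_mul, map_mul, ev_pure] at h1 h2
    have e1 : (1 : U).length = 0 := rfl
    have e2 : a.length = 1 := rfl
    rw [e1] at h1 h2
    rw [e2] at h2
    constructor <;> linarith
  · rintro ⟨h1, h2⟩ x y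
    rw [hat_L, hat_L]
    simp only [val_mul, map_mul]
    rw [h1, h2]

/-- `μ` has two words of positive probability whose lengths differ by at most `N` -/
def Loose (N : ℕ) (μ : PDist U) : Prop :=
  ∃ x y : U, 0 < μ.1.coeff x ∧ 0 < μ.1.coeff y ∧ x.length < y.length ∧ y.length ≤ x.length + N

lemma Loose.mono {N N' : ℕ} (h : N ≤ N') {μ : PDist U} : Loose N μ → Loose N' μ := by
  rintro ⟨x, y, h1, h2, h3, h4⟩
  exact ⟨x, y, h1, h2, h3, by omega⟩

lemma exists_pos {M : Type} [Monoid M] (μ : PDist M) : ∃ z, 0 < μ.1.coeff z := by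
  by_contra hcon
  push Not at hcon
  have h := μ.2.2
  have : μ.1.coeff.sum (fun _ r => r) = 0 := by
    apply Finset.sum_eq_zero
    intro z _
    exact le_antisymm (hcon z) (μ.2.1 z)
  linarith

lemma Loose.mul_right {N : ℕ} {μ : PDist U} (h : Loose N μ) (ν : PDist U) : Loose N (μ * ν) := by
  obtain ⟨x, y, h1, h2, h3, h4⟩ := h
  obtain ⟨z, hz⟩ := exists_pos ν
  refine ⟨x * z, y * z, ?_, ?_, ?_, ?_⟩
  · exact (mul_pos h1 hz).trans_le (le_mul_coeff μ.2.1 ν.2.1 x z)
  · exact (mul_pos h2 hz).trans_le (le_mul_coeff μ.2.1 ν.2.1 y z)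
  · rw [FreeMonoid.length_mul, FreeMonoid.length_mul]; omega
  · rw [FreeMonoid.length_mul, FreeMonoid.length_mul]; omega

lemma Loose.mul_left {N : ℕ} {μ : PDist U} (h : Loose N μ) (ν : PDist U) : Loose N (ν * μ) := by
  obtain ⟨x, y, h1, h2, h3, h4⟩ := h
  obtain ⟨z, hz⟩ := exists_pos ν
  refine ⟨z * x, z * y, ?_, ?_, ?_, ?_⟩
  · exact (mul_pos hz h1).trans_le (le_mul_coeff ν.2.1 μ.2.1 z x)
  · exact (mul_pos hz h2).trans_le (le_mul_coeff ν.2.1 μ.2.1 z y)
  · rw [FreeMonoid.length_mul, FreeMonoid.length_mul]; omega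
  · rw [FreeMonoid.length_mul, FreeMonoid.length_mul]; omega

lemma coeff_cc (r : unitInterval) (μ ν : PDist U) (x : U) :
    (cc r μ ν).1.coeff x = r * μ.1.coeff x + (1 - r) * ν.1.coeff x := by
  rw [val_cc, MonoidAlgebra.coeff_add, Finsupp.add_apply, MonoidAlgebra.coeff_smul_apply,
    MonoidAlgebra.coeff_smul_apply, smul_eq_mul, smul_eq_mul]

lemma Loose.cc_left {N : ℕ} {μ : PDist U} (h : Loose N μ) {r : unitInterval} (hr : 0 < (r : ℝ))
    (ν : PDist U) : Loose N (cc r μ ν) := by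
  obtain ⟨x, y, h1, h2, h3, h4⟩ := h
  refine ⟨x, y, ?_, ?_, h3, h4⟩
  · rw [coeff_cc]
    exact add_pos_of_pos_of_nonneg (mul_pos hr h1) (mul_nonneg (sub_nonneg.mpr r.2.2) (ν.2.1 _))
  · rw [coeff_cc]
    exact add_pos_of_pos_of_nonneg (mul_pos hr h2) (mul_nonneg (sub_nonneg.mpr r.2.2) (ν.2.1 _))

lemma Loose.cc_right {N : ℕ} {μ : PDist U} (h : Loose N μ) {r : unitInterval} (hr : (r : ℝ) < 1)
    (ν : PDist U) : Loose N (cc r ν μ) := by
  obtain ⟨x, y, h1, h2, h3, h4⟩ := h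
  refine ⟨x, y, ?_, ?_, h3, h4⟩
  · rw [coeff_cc]
    exact add_pos_of_nonneg_of_pos (mul_nonneg r.2.1 (ν.2.1 _)) (mul_pos (sub_pos.mpr hr) h1)
  · rw [coeff_cc]
    exact add_pos_of_nonneg_of_pos (mul_nonneg r.2.1 (ν.2.1 _)) (mul_pos (sub_pos.mpr hr) h2)

lemma ev_cc (c : ℝ) (r : unitInterval) (μ ν : PDist U) :
    ev c (cc r μ ν).1 = r * ev c μ.1 + (1 - r) * ev c ν.1 := by
  rw [val_cc, map_add, map_smul, map_smul, smul_eq_mul, smul_eq_mul]

/-- the congruence `θ_N` -/
noncomputable def theta (N : ℕ) : Cong (PDist U) where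
  r μ ν := (ev (1 / 2) μ.1 = ev (1 / 2) ν.1 ∧ ev (1 / 4) μ.1 = ev (1 / 4) ν.1) ∧
    (μ = ν ∨ (Loose N μ ∧ Loose N ν))
  equiv := by
    refine ⟨fun _ => ⟨⟨rfl, rfl⟩, Or.inl rfl⟩, ?_, ?_⟩
    · rintro x y ⟨⟨h1, h2⟩, h3⟩
      exact ⟨⟨h1.symm, h2.symm⟩, h3.imp Eq.symm And.symm⟩
    · rintro x y z ⟨⟨h1, h2⟩, h3⟩ ⟨⟨h4, h5⟩, h6⟩
      refine ⟨⟨h1.trans h4, h2.trans h5⟩, ?_⟩
      rcases h3 with rfl | h3
      · exact h6
      · rcases h6 with rfl | h6
        · exact Or.inr h3
        · exact Or.inr ⟨h3.1, h6.2⟩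
  mul := by
    rintro x y z w ⟨⟨h1, h2⟩, h3⟩ ⟨⟨h4, h5⟩, h6⟩
    refine ⟨⟨?_, ?_⟩, ?_⟩
    · rw [val_mul, val_mul, map_mul, map_mul, h1, h4]
    · rw [val_mul, val_mul, map_mul, map_mul, h2, h5]
    · rcases h3 with rfl | h3
      · rcases h6 with rfl | h6
        · exact Or.inl rfl
        · exact Or.inr ⟨h6.1.mul_left _, h6.2.mul_left _⟩
      · exact Or.inr ⟨h3.1.mul_right _, h3.2.mul_right _⟩
  conv := by
    rintro x y z w t ⟨⟨h1, h2⟩, h3⟩ ⟨⟨h4, h5⟩, h6⟩
    refine ⟨⟨?_, ?_⟩, ?_⟩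
    · rw [ev_cc, ev_cc, h1, h4]
    · rw [ev_cc, ev_cc, h2, h5]
    · rcases eq_or_lt_of_le t.2.2 with ht | ht
      · have ht' : t = 1 := Subtype.ext ht
        subst ht'
        rw [ConvexMonoid.cc_one, ConvexMonoid.cc_one]
        exact h3
      · rcases eq_or_lt_of_le t.2.1 with ht0 | ht0
        · have ht' : t = 0 := Subtype.ext ht0.symm
          subst ht'
          rw [ConvexMonoid.cc_comm, ConvexMonoid.cc_comm 0 y w, unitInterval.symm_zero,
            ConvexMonoid.cc_one, ConvexMonoid.cc_one]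
          exact h6
        · rcases h3 with rfl | h3
          · rcases h6 with rfl | h6
            · exact Or.inl rfl
            · exact Or.inr ⟨h6.1.cc_right ht _, h6.2.cc_right ht _⟩
          · exact Or.inr ⟨h3.1.cc_left ht0 _, h3.2.cc_left ht0 _⟩

lemma theta_mono {N N' : ℕ} (h : N ≤ N') {μ ν : PDist U} (h1 : (theta N).r μ ν) :
    (theta N').r μ ν :=
  ⟨h1.1, h1.2.imp id fun h2 => ⟨h2.1.mono h, h2.2.mono h⟩⟩

lemma length_inj {x y : U} (h : x.length = y.length) : x = y := by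
  have : ∀ l l' : List Unit, l.length = l'.length → l = l' := by
    intro l l' h
    exact List.ext_getElem h fun _ _ _ => rfl
  exact this x y h

lemma eq_pure {M : Type} [Monoid M] (μ : PDist M) (x : M) (h : ∀ y, 0 < μ.1.coeff y → y = x) :
    μ = PDist.pure x := by
  have h1 : ∀ y, y ≠ x → μ.1.coeff y = 0 := by
    intro y hy
    by_contra hne
    exact hy (h y (lt_of_le_of_ne (μ.2.1 y) (Ne.symm hne)))
  have h2 : μ.1.coeff = Finsupp.single x (μ.1.coeff x) := by
    ext y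
    by_cases hy : y = x
    · rw [hy]; simp
    · rw [h1 y hy, Finsupp.single_eq_of_ne hy]
  have h3 : μ.1.coeff x = 1 := by
    have := μ.2.2
    rw [h2, Finsupp.sum_single_index rfl] at this
    exact this
  apply Subtype.ext
  apply MonoidAlgebra.coeff_injective
  rw [h2, h3]
  rfl

/-- points are rigid -/
lemma eq_of_pure (x : U) (ν : PDist U) (h1 : ev (1 / 2) (PDist.pure x).1 = ev (1 / 2) ν.1)
    (h2 : ev (1 / 4) (PDist.pure x).1 = ev (1 / 4) ν.1) : ν = PDist.pure x := by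
  rw [ev_pure] at h1 h2
  set s : ℝ := (1 / 2) ^ x.length with hs
  have hs2 : (1 / 4 : ℝ) ^ x.length = s ^ 2 := by
    rw [hs, ← pow_mul, mul_comm, pow_mul]; norm_num
  have h3 : ν.1.coeff.sum (fun w r => r * ((1 / 2) ^ w.length - s) ^ 2) = 0 := by
    have h4 : ν.1.coeff.sum (fun w r => r * ((1 / 2 : ℝ) ^ w.length - s) ^ 2) =
        ev (1 / 4) ν.1 - 2 * s * ev (1 / 2) ν.1 + s ^ 2 * ν.1.coeff.sum (fun _ r => r) := by
      rw [ev_eq, ev_eq, Finsupp.sum, Finsupp.sum, Finsupp.sum, Finsupp.sum, Finset.mul_sum,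
        Finset.mul_sum, ← Finset.sum_sub_distrib, ← Finset.sum_add_distrib]
      apply Finset.sum_congr rfl
      intro w _
      have : (1 / 4 : ℝ) ^ w.length = ((1 / 2) ^ w.length) ^ 2 := by
        rw [← pow_mul, mul_comm, pow_mul]; norm_num
      rw [this]; ring
    rw [h4, ν.2.2, ← h1, ← h2, hs2]; ring
  apply eq_pure
  intro y hy
  have h5 := (Finset.sum_eq_zero_iff_of_nonneg (fun w _ =>
    mul_nonneg (ν.2.1 w) (sq_nonneg ((1 / 2 : ℝ) ^ w.length - s)))).mp h3 y
    (Finsupp.mem_support_iff.mpr hy.ne')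
  have h6 : ((1 / 2 : ℝ) ^ y.length - s) ^ 2 = 0 := by
    rcases mul_eq_zero.mp h5 with h | h
    · exact absurd h hy.ne'
    · exact h
  have h7 : (1 / 2 : ℝ) ^ y.length = (1 / 2) ^ x.length := by
    have := pow_eq_zero_iff (two_ne_zero) |>.mp h6
    linarith
  apply length_inj
  exact pow_right_injective₀ (by norm_num) (by norm_num) h7

/-- each pair of equivalent elements belongs to some `θ_N` -/
lemma exists_theta (μ ν : PDist U) (h : (synCong L).r μ ν) : ∃ N, (theta N).r μ ν := by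
  rw [syn_iff] at h
  by_cases he : μ = ν
  · exact ⟨0, h, Or.inl he⟩
  have key : ∀ μ ν : PDist U, ev (1 / 2) μ.1 = ev (1 / 2) ν.1 → ev (1 / 4) μ.1 = ev (1 / 4) ν.1 →
      μ ≠ ν → ∃ N, Loose N μ := by
    intro μ ν h1 h2 hne
    by_contra hcon
    push Not at hcon
    obtain ⟨x, hx⟩ := exists_pos μ
    have h3 : μ = PDist.pure x := by
      apply eq_pure
      intro y hy
      apply length_inj
      rcases lt_trichotomy x.length y.length with h4 | h4 | h4
      · exact absurd ⟨x, y, hx, hy, h4, by omega⟩ (hcon y.length)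
      · exact h4.symm
      · exact absurd ⟨y, x, hy, hx, h4, by omega⟩ (hcon x.length)
    subst h3
    exact hne (eq_of_pure x ν h1 h2).symm
  obtain ⟨N1, hN1⟩ := key μ ν h.1 h.2 he
  obtain ⟨N2, hN2⟩ := key ν μ h.1.symm h.2.symm (Ne.symm he)
  exact ⟨max N1 N2, h, Or.inr ⟨hN1.mono (le_max_left _ _), hN2.mono (le_max_right _ _)⟩⟩

/-! ### The automaton -/

/-- the probabilistic automaton -/
noncomputable def Aut : PFA Unit where
  Q := Fin 3
  fin := inferInstance
  init := ![1 / 2, 1 / 2, 0]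
  init_nonneg := by intro q; fin_cases q <;> norm_num
  init_sum := by rw [Fin.sum_univ_three]; simp; norm_num
  tr := fun q _ => ![![1 / 2, 0, 1 / 2], ![0, 1 / 4, 3 / 4], ![0, 0, 1]] q
  tr_nonneg := by intro q _ q'; fin_cases q <;> fin_cases q' <;> norm_num
  tr_sum := by intro q _; rw [Fin.sum_univ_three]; fin_cases q <;> simp <;> norm_num
  out := ![1, 1, 0]
  out_mem := by intro q; fin_cases q <;> norm_num

lemma run_Aut (d : Fin 3 → ℝ) (w : List Unit) :
    Aut.run d w (0 : Fin 3) = d 0 * (1 / 2) ^ w.length ∧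
      Aut.run d w (1 : Fin 3) = d 1 * (1 / 4) ^ w.length := by
  induction w generalizing d with
  | nil => simp [PFA.run]
  | cons x w ih =>
    have h := ih (fun q' => ∑ q : Fin 3, d q *
      (![![1 / 2, 0, 1 / 2], ![0, 1 / 4, 3 / 4], ![0, 0, 1]] : Fin 3 → Fin 3 → ℝ) q q')
    refine ⟨h.1.trans ?_, h.2.trans ?_⟩
    · rw [Fin.sum_univ_three, List.length_cons, pow_succ]
      simp; ring
    · rw [Fin.sum_univ_three, List.length_cons, pow_succ]
      simp; ring

lemma lang_Aut : Aut.lang = L := by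
  funext w
  have h := run_Aut Aut.init (FreeMonoid.toList w)
  have h1 : Aut.lang w = Aut.run Aut.init (FreeMonoid.toList w) (0 : Fin 3) * 1 +
      Aut.run Aut.init (FreeMonoid.toList w) (1 : Fin 3) * 1 +
      Aut.run Aut.init (FreeMonoid.toList w) (2 : Fin 3) * 0 := by
    change ∑ q : Fin 3, Aut.run Aut.init (FreeMonoid.toList w) q * (![1, 1, 0] : Fin 3 → ℝ) q = _
    rw [Fin.sum_univ_three]
    rfl
  rw [h1, h.1, h.2]
  have e1 : Aut.init (0 : Fin 3) = 1 / 2 := rfl
  have e2 : Aut.init (1 : Fin 3) = 1 / 2 := rfl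
  rw [e1, e2]
  unfold L
  change 1 / 2 * (1 / 2) ^ w.length * 1 + 1 / 2 * (1 / 4) ^ w.length * 1 + _ * 0 = _
  ring

/-! ### The proof -/

lemma length_pow (w : U) (n : ℕ) : (w ^ n).length = n * w.length := by
  induction n with
  | zero => simp
  | succ n ih => rw [pow_succ, FreeMonoid.length_mul, ih]; ring

lemma pure_pow {M : Type} [Monoid M] (w : M) (n : ℕ) : PDist.pure (w ^ n) = PDist.pure w ^ n := by
  induction n with
  | zero => rw [pow_zero, pow_zero]; rfl
  | succ n ih => rw [pow_succ, pow_succ, pure_mul, ih]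

/-- `s = 2^(-(N+1))` -/
noncomputable def sN (N : ℕ) : ℝ := (1 / 2) ^ (N + 1)

lemma sN_pos (N : ℕ) : 0 < sN N := by unfold sN; positivity

lemma sN_le (N : ℕ) (hN : 1 ≤ N) : sN N ≤ 1 / 4 := by
  unfold sN
  calc ((1 : ℝ) / 2) ^ (N + 1) ≤ (1 / 2) ^ 2 :=
        pow_le_pow_of_le_one (by norm_num) (by norm_num) (by omega)
    _ = 1 / 4 := by norm_num

/-- the coefficient `1/2` -/
noncomputable def hf : unitInterval := ⟨1 / 2, by norm_num, by norm_num⟩

lemma alpha_mem (N : ℕ) (hN : 1 ≤ N) :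
    (1 - sN N + sN N ^ 2) / (2 - sN N) ∈ unitInterval := by
  have h1 := sN_pos N
  have h2 := sN_le N hN
  constructor
  · apply div_nonneg <;> nlinarith
  · rw [div_le_one (by linarith)]; nlinarith

lemma beta_mem (N : ℕ) (hN : 1 ≤ N) :
    sN N * (2 - sN N) / (1 - sN N ^ 2) ∈ unitInterval := by
  have h1 := sN_pos N
  have h2 := sN_le N hN
  constructor
  · apply div_nonneg <;> nlinarith
  · rw [div_le_one (by nlinarith)]; nlinarith

/-- the first element, with `x` in place of the letter -/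
noncomputable def m0 {M : Type} [ConvexMonoid M] (N : ℕ) (x : M) : M := cc hf 1 (x ^ (N + 1))

/-- the second element, with `x` in place of the letter -/
noncomputable def n0 {M : Type} [ConvexMonoid M] (N : ℕ) (hN : 1 ≤ N) (x : M) : M :=
  cc ⟨_, alpha_mem N hN⟩ 1 (cc ⟨_, beta_mem N hN⟩ x (x ^ (N + 2)))

lemma hom_m0 {M M' : Type} [ConvexMonoid M] [ConvexMonoid M'] {φ : M → M'} (h : IsHom φ) (N : ℕ)
    (x : M) : φ (m0 N x) = m0 N (φ x) := by
  unfold m0
  rw [h.map_cc, h.map_one, IsHom.map_pow h]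

lemma hom_n0 {M M' : Type} [ConvexMonoid M] [ConvexMonoid M'] {φ : M → M'} (h : IsHom φ) (N : ℕ)
    (hN : 1 ≤ N) (x : M) : φ (n0 N hN x) = n0 N hN (φ x) := by
  unfold n0
  rw [h.map_cc, h.map_cc, h.map_one, IsHom.map_pow h]

lemma cong_m0 {M : Type} [ConvexMonoid M] (C : Cong M) (N : ℕ) {x y : M} (h : C.r x y) :
    C.r (m0 N x) (m0 N y) := by
  unfold m0
  exact C.conv _ (C.equiv.refl _) (Cong.pow C h _)

lemma cong_n0 {M : Type} [ConvexMonoid M] (C : Cong M) (N : ℕ) (hN : 1 ≤ N) {x y : M}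
    (h : C.r x y) : C.r (n0 N hN x) (n0 N hN y) := by
  unfold n0
  exact C.conv _ (C.equiv.refl _) (C.conv _ h (Cong.pow C h _))

/-- the letter as an element of `D(a*)` -/
noncomputable def da : PDist U := PDist.pure a

lemma ev_one' (c : ℝ) : ev c (1 : PDist U).1 = 1 := by
  rw [val_one, map_one]

lemma ev_pow' (c : ℝ) (n : ℕ) : ev c (da ^ n).1 = c ^ n := by
  unfold da
  rw [← pure_pow, ev_pure, length_pow]
  have : a.length = 1 := rfl
  rw [this, mul_one]

lemma ev_da (c : ℝ) : ev c da.1 = c := by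
  have := ev_pow' c 1
  rwa [pow_one, pow_one] at this

/-- the two elements are syntactically equivalent -/
lemma syn_m0_n0 (N : ℕ) (hN : 1 ≤ N) : (synCong L).r (m0 N da) (n0 N hN da) := by
  rw [syn_iff]
  have h1 := sN_pos N
  have h2 := sN_le N hN
  have h3 : 2 - sN N ≠ 0 := by linarith
  have h4 : 1 - sN N ^ 2 ≠ 0 := by nlinarith
  have e1 : ((1 : ℝ) / 2) ^ (N + 1) = sN N := rfl
  have e2 : ((1 : ℝ) / 2) ^ (N + 2) = sN N / 2 := by unfold sN; ring
  have e3 : ((1 : ℝ) / 4) ^ (N + 1) = sN N ^ 2 := by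
    unfold sN
    rw [← pow_mul, mul_comm, pow_mul]; norm_num
  have e4 : ((1 : ℝ) / 4) ^ (N + 2) = sN N ^ 2 / 4 := by
    rw [← e3]; ring
  unfold m0 n0
  constructor
  · rw [ev_cc, ev_cc, ev_cc, ev_one', ev_pow', ev_pow', ev_da, e1, e2]
    simp only [hf]
    field_simp
    ring
  · rw [ev_cc, ev_cc, ev_cc, ev_one', ev_pow', ev_pow', ev_da, e3, e4]
    simp only [hf]
    field_simp
    ring

lemma coeff_pow (n : ℕ) (x : U) (hx : x.length ≠ n) : (da ^ n).1.coeff x = 0 := by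
  unfold da
  rw [← pure_pow]
  have h : x ≠ a ^ n := by
    rintro rfl
    apply hx
    rw [length_pow]
    have : a.length = 1 := rfl
    rw [this, mul_one]
  unfold PDist.pure
  rw [MonoidAlgebra.coeff_single, Finsupp.single_eq_of_ne h]

lemma not_theta (N : ℕ) (hN : 1 ≤ N) : ¬ (theta N).r (m0 N da) (n0 N hN da) := by
  have hm : ∀ x : U, x.length ≠ 0 → x.length ≠ N + 1 → (m0 N da).1.coeff x = 0 := by
    intro x h1 h2
    unfold m0
    rw [coeff_cc, coeff_pow _ _ h2]
    have : (1 : PDist U) = da ^ 0 := (pow_zero _).symm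
    rw [this, coeff_pow _ _ h1]
    ring
  rintro ⟨-, h | ⟨⟨x, y, h1, h2, h3, h4⟩, -⟩⟩
  · have h5 : (m0 N da).1.coeff a = 0 := hm a (by decide) (by
      have : a.length = 1 := rfl
      omega)
    rw [h] at h5
    have hα := alpha_mem N hN
    have hβ := beta_mem N hN
    have s1 := sN_pos N
    have s2 := sN_le N hN
    have h6 : (da : PDist U).1.coeff a = 1 := by
      unfold da PDist.pure
      simp
    unfold n0 at h5
    rw [coeff_cc, coeff_cc, h6] at h5
    have h7 : 0 ≤ (1 : PDist U).1.coeff a := (1 : PDist U).2.1 a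
    have h8 : 0 ≤ (da ^ (N + 2)).1.coeff a := (da ^ (N + 2)).2.1 a
    have h9 : 0 < 1 - (1 - sN N + sN N ^ 2) / (2 - sN N) := by
      rw [sub_pos, div_lt_one (by linarith)]; nlinarith
    have h10 : 0 < sN N * (2 - sN N) / (1 - sN N ^ 2) := by
      apply div_pos <;> nlinarith
    have h11 : 0 ≤ 1 - sN N * (2 - sN N) / (1 - sN N ^ 2) := sub_nonneg.mpr hβ.2
    have h12 := mul_nonneg hα.1 h7
    have h13 := mul_nonneg h11 h8
    have h14 := mul_pos h9 (add_pos_of_pos_of_nonneg (mul_pos h10 one_pos) h13)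
    simp only at h5
    linarith
  · have hx : x.length = 0 ∨ x.length = N + 1 := by
      by_contra hcon
      push Not at hcon
      rw [hm x hcon.1 hcon.2] at h1
      exact lt_irrefl _ h1
    have hy : y.length = 0 ∨ y.length = N + 1 := by
      by_contra hcon
      push Not at hcon
      rw [hm y hcon.1 hcon.2] at h2
      exact lt_irrefl _ h2
    omega

/-- pullback of a congruence along a morphism -/
def comap {M M' : Type} [ConvexMonoid M] [ConvexMonoid M'] (C : Cong M') {φ : M → M'}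
    (h : IsHom φ) : Cong M where
  r x y := C.r (φ x) (φ y)
  equiv := ⟨fun _ => C.equiv.refl _, fun h => C.equiv.symm h, fun h1 h2 => C.equiv.trans h1 h2⟩
  mul := by
    intro x y z w h1 h2
    rw [h.map_mul, h.map_mul]
    exact C.mul h1 h2
  conv := by
    intro x y z w t h1 h2
    rw [h.map_cc, h.map_cc]
    exact C.conv t h1 h2

theorem not_finPres : ¬ FinPres (Syn L) := by
  rintro ⟨G, _, R, hR, φ, hφ, hsurj, hker⟩
  -- lift of `φ`
  choose t ht using fun g => (synCong L).cls_surj (φ (PDist.pure (FreeMonoid.of g)))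
  obtain ⟨T, hT, hTt⟩ := exists_lift t
  have hcls : ∀ μ, (synCong L).cls (T μ) = φ μ := by
    have h1 : IsHom fun μ => (synCong L).cls (T μ) :=
      ⟨by rw [hT.map_one]; exact (synCong L).isHom_cls.map_one,
        fun x y => by rw [hT.map_mul]; exact (synCong L).isHom_cls.map_mul _ _,
        fun r x y => by rw [hT.map_cc]; exact (synCong L).isHom_cls.map_cc _ _ _⟩
    exact hom_ext h1 hφ fun g => by rw [hTt, ht]
  obtain ⟨s, hs⟩ := hsurj ((synCong L).cls da)
  have hs' : (synCong L).r (T s) da := by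
    rw [← Cong.cls_eq, hcls, hs]
  -- a common `N`
  have hN : ∃ N, 1 ≤ N ∧ (theta N).r (T s) da ∧ ∀ p ∈ R, (theta N).r (T p.1) (T p.2) := by
    obtain ⟨N1, h1⟩ := exists_theta _ _ hs'
    have h2 : ∀ p : R, ∃ N, (theta N).r (T p.1.1) (T p.1.2) := by
      rintro ⟨p, hp⟩
      apply exists_theta
      rw [← Cong.cls_eq, hcls, hcls, hker]
      exact fun C hC => hC p hp
    choose Np hNp using h2
    have : Finite R := hR
    obtain ⟨B, hB⟩ := (Set.finite_range Np).bddAbove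
    refine ⟨max (max N1 B) 1, le_max_right _ _,
      theta_mono ((le_max_left _ _).trans (le_max_left _ _)) h1, fun p hp => ?_⟩
    exact theta_mono ((hB ⟨⟨p, hp⟩, rfl⟩).trans ((le_max_right _ _).trans (le_max_left _ _)))
      (hNp ⟨p, hp⟩)
  obtain ⟨N, hN1, hNs, hNR⟩ := hN
  have h1 : φ (m0 N s) = φ (n0 N hN1 s) := by
    rw [hom_m0 hφ, hom_n0 hφ, hs, ← hom_m0 (synCong L).isHom_cls,
      ← hom_n0 (synCong L).isHom_cls, Cong.cls_eq]
    exact syn_m0_n0 N hN1
  have h2 := (hker _ _).mp h1 (comap (theta N) hT) hNR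
  have h3 : (theta N).r (T (m0 N s)) (T (n0 N hN1 s)) := h2
  rw [hom_m0 hT, hom_n0 hT] at h3
  exact not_theta N hN1 ((theta N).equiv.trans
    ((theta N).equiv.symm (cong_m0 (theta N) N hNs))
    ((theta N).equiv.trans h3 (cong_n0 (theta N) N hN1 hNs)))

/-- There is a probabilistic finite automaton (with a one-letter alphabet) such that the syntactic
convex monoid of its language is not finitely presentable. -/
theorem result : ∃ A : PFA Unit, ¬ FinPres (Syn A.lang) :=
  ⟨Aut, by rw [lang_Aut]; exact not_finPres⟩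

end Pool.Agent.Results.MP_492578_lc.NotFinPres
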